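import Pool.Agent.Helper96.NF.Push
import Pool.Agent.Helper96.PH.Defs

/-!
# The pushdown program (P11a)
-/

set_option autoImplicit false

namespace Pool.Agent.Helper60.PH

open Pool.Agent.Helper19.NF
open Pool.Agent.Helper74.NE (fine)
open Pool.Agent.Helper96.NF (Good good_out good_ask good_push good_pop)

/-! ## The program -/

section program

/-- The stack symbols: a summand `s` of the element `u` of row `i + 1` and the sum before it, or a summand of the result
and the sum before it. -/
abbrev Sy (R N d : ℕ) (U B G : Type) : Type := ((Fin (R + 1) × U × Fin d) × B) ⊕ (Fin N × G)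

/-- The states: a summand with the sum before it; a value just found; a summand, the sum before it, and the argument;
the result. -/
abbrev St (R N d : ℕ) (U B G : Type) : Type :=
  Sy R N d U B G ⊕ B ⊕ (Sy R N d U B G × B) ⊕ G

variable {U D B G : Type} [Fintype D] [AddCommGroup B] [AddCommGroup G] {R N d : ℕ}

/-- The state in which the evaluation of the element `u` of row `i` starts. -/
def ent (hd : 0 < d) (x0 : U → B) : (i : ℕ) → i ≤ R + 1 → U → St R N d U B G
  | 0, _, u => .inr (.inl (x0 u))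
  | i + 1, h, u => .inl (.inl ((⟨i, h⟩, u, ⟨0, hd⟩), 0))

/-- The state after a summand. -/
def nxt (e : Fin d ≃ D) : Sy R N d U B G → (D → B) × G → St R N d U B G
  | .inl (σ, t), w => if h : (σ.2.2 : ℕ) + 1 < d then
      .inl (.inl ((σ.1, σ.2.1, ⟨σ.2.2 + 1, h⟩), t + w.1 (e σ.2.2))) else .inr (.inl (t + w.1 (e σ.2.2)))
  | .inr (j, z), w => if h : (j : ℕ) + 1 < N then .inl (.inr (⟨j + 1, h⟩, z + w.2)) else
      .inr (.inr (.inr (z + w.2)))

/-- The evaluation which belongs to a summand. -/
def sub (e : Fin d ≃ D) (e' : Fin N ≃ U) (hd : 0 < d) (g : D → Equiv.Perm U) (x0 : U → B) :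
    Sy R N d U B G → St R N d U B G
  | .inl (σ, _) => ent hd x0 σ.1 σ.1.2.le (g (e σ.2.2) σ.2.1)
  | .inr (j, _) => ent hd x0 (R + 1) le_rfl (e' j)

/-- The program. -/
def prog (e : Fin d ≃ D) (e' : Fin N ≃ U) (hd : 0 < d) (hN : 0 < N) (g : D → Equiv.Perm U) (x0 : U → B) :
    PProg B ((D → B) × G) G (St R N d U B G) (Sy R N d U B G) where
  start := .inl (.inr (⟨0, hN⟩, 0))
  act := fun s => match s with
    | .inl f => .push f (sub e e' hd g x0 f)
    | .inr (.inl x) => .pop (fun f => .inr (.inr (.inl (f, x))))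
    | .inr (.inr (.inl (f, x))) => .ask x (nxt e f)
    | .inr (.inr (.inr z)) => .out z

variable (e : Fin d ≃ D) (e' : Fin N ≃ U) (hd : 0 < d) (hN : 0 < N) (g : D → Equiv.Perm U) (x0 : U → B)
  (J : B → (D → B) × G)

/-- One summand, or `0`. -/
def tb (i : ℕ) (u : U) (s : ℕ) : B :=
  if h : s < d then (J (val g x0 (fun b => (J b).1) i (g (e ⟨s, h⟩) u))).1 (e ⟨s, h⟩) else 0

omit [AddCommGroup G] in
theorem sum_tb (i : ℕ) (u : U) :
    ∑ s ∈ Finset.range d, tb e g x0 J i u s = val g x0 (fun b => (J b).1) (i + 1) u := by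
  unfold tb
  rw [← Finset.sum_fin_eq_sum_range
    (fun s : Fin d => (J (val g x0 (fun b => (J b).1) i (g (e s) u))).1 (e s))]
  exact Equiv.sum_comp e (fun c => (J (val g x0 (fun b => (J b).1) i (g c u))).1 c)

/-- One summand of the result, or `0`. -/
def tg (R : ℕ) (j : ℕ) : G :=
  if h : j < N then (J (val g x0 (fun b => (J b).1) (R + 1) (e' ⟨j, h⟩))).2 else 0

theorem sum_tg [Fintype U] (R : ℕ) : ∑ j ∈ Finset.range N, tg e' g x0 J R j =
    ∑ v, (J (val g x0 (fun b => (J b).1) (R + 1) v)).2 := by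
  unfold tg
  rw [← Finset.sum_fin_eq_sum_range
    (fun j : Fin N => (J (val g x0 (fun b => (J b).1) (R + 1) (e' j))).2)]
  exact Equiv.sum_comp e' (fun v => (J (val g x0 (fun b => (J b).1) (R + 1) v)).2)

/-- The work at one slot. -/
theorem run_slot {i : ℕ} {hi : i < R + 1} {u : U} {Y : Set B} {a : G} {st : List (Sy R N d U B G)}
    (hY : ∀ i < R + 2, ∀ w, val g x0 (fun b => (J b).1) i w ∈ Y)
    (IH : ∀ (hi : i ≤ R + 1) (u : U) (st : List (Sy R N d U B G)),
      Good (prog e e' hd hN g x0) J Y a (.inr (.inl (val g x0 (fun b => (J b).1) i u)), st) →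
      Good (prog e e' hd hN g x0) J Y a (ent hd x0 i hi u, st))
    {j : ℕ} (hj : j < d) {t : B}
    (h : Good (prog e e' hd hN g x0) J Y a
      (if h : j + 1 < d then .inl (.inl ((⟨i, hi⟩, u, ⟨j + 1, h⟩), t + tb e g x0 J i u j)) else
        .inr (.inl (t + tb e g x0 J i u j)), st)) :
    Good (prog e e' hd hN g x0) J Y a (.inl (.inl ((⟨i, hi⟩, u, ⟨j, hj⟩), t)), st) := by
  refine good_push (P := prog e e' hd hN g x0) (g := .inl ((⟨i, hi⟩, u, ⟨j, hj⟩), t)) rfl ?_
  refine IH _ _ _ ?_
  refine good_pop (P := prog e e' hd hN g x0) (s := .inr (.inl _)) rfl ?_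
  refine good_ask (P := prog e e' hd hN g x0) (s := .inr (.inr (.inl _))) rfl (hY i (by omega) _) ?_
  rw [tb, dif_pos hj] at h
  exact h

/-- The evaluation of an element of a row. -/
theorem run_val {Y : Set B} (hY : ∀ i < R + 2, ∀ w, val g x0 (fun b => (J b).1) i w ∈ Y) (a : G) :
    ∀ (i : ℕ) (hi : i ≤ R + 1) (u : U) (st : List (Sy R N d U B G)),
    Good (prog e e' hd hN g x0) J Y a (.inr (.inl (val g x0 (fun b => (J b).1) i u)), st) →
    Good (prog e e' hd hN g x0) J Y a (ent hd x0 i hi u, st) := by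
  intro i
  induction i with
  | zero => intro hi u st h; exact h
  | succ i IH =>
    intro hi u st h
    have key : ∀ (m j : ℕ) (hj : j < d), d = j + (m + 1) → ∀ t : B,
        t = ∑ s ∈ Finset.range j, tb e g x0 J i u s →
        Good (prog e e' hd hN g x0) J Y a (.inl (.inl ((⟨i, hi⟩, u, ⟨j, hj⟩), t)), st) := by
      intro m
      induction m with
      | zero =>
        intro j hj hd' t ht
        refine run_slot e e' hd hN g x0 J hY IH hj ?_
        have e1 : t + tb e g x0 J i u j = val g x0 (fun b => (J b).1) (i + 1) u := by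
          rw [← sum_tb e, ht]
          have hr : Finset.range d = Finset.range (j + 1) := congrArg Finset.range (by omega)
          rw [hr, Finset.sum_range_succ]
        rw [e1, dif_neg (by omega)]
        exact h
      | succ m ih =>
        intro j hj hd' t ht
        refine run_slot e e' hd hN g x0 J hY IH hj ?_
        rw [dif_pos (by omega)]
        refine ih (j + 1) _ (by omega) _ ?_
        rw [Finset.sum_range_succ, ht]
    exact key (d - 1) 0 hd (by omega) 0 (by simp)

/-- The whole evaluation. -/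
theorem run_all [Fintype U] {Y : Set B} (hY : ∀ i < R + 2, ∀ w, val g x0 (fun b => (J b).1) i w ∈ Y) :
    Good (prog e e' hd hN g x0) J Y (∑ v, (J (val g x0 (fun b => (J b).1) (R + 1) v)).2)
      ((prog (R := R) e e' hd hN g x0).start, []) := by
  have key : ∀ (m j : ℕ) (hj : j < N), N = j + (m + 1) → ∀ z : G,
      z = ∑ s ∈ Finset.range j, tg e' g x0 J R s →
      Good (prog (R := R) e e' hd hN g x0) J Y (∑ v, (J (val g x0 (fun b => (J b).1) (R + 1) v)).2)
        (.inl (.inr (⟨j, hj⟩, z)), []) := by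
    have slot : ∀ (j : ℕ) (hj : j < N) (z : G),
        Good (prog (R := R) e e' hd hN g x0) J Y (∑ v, (J (val g x0 (fun b => (J b).1) (R + 1) v)).2)
          (if h : j + 1 < N then .inl (.inr (⟨j + 1, h⟩, z + tg e' g x0 J R j)) else
            .inr (.inr (.inr (z + tg e' g x0 J R j))), []) →
        Good (prog (R := R) e e' hd hN g x0) J Y (∑ v, (J (val g x0 (fun b => (J b).1) (R + 1) v)).2)
          (.inl (.inr (⟨j, hj⟩, z)), []) := by
      intro j hj z h
      refine good_push (P := prog e e' hd hN g x0) (g := .inr (⟨j, hj⟩, z)) rfl ?_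
      refine run_val e e' hd hN g x0 J hY _ (R + 1) le_rfl (e' ⟨j, hj⟩) _ ?_
      refine good_pop (P := prog e e' hd hN g x0) (s := .inr (.inl _)) rfl ?_
      refine good_ask (P := prog e e' hd hN g x0) (s := .inr (.inr (.inl _))) rfl (hY (R + 1) (by omega) _) ?_
      rw [tg, dif_pos hj] at h
      exact h
    intro m
    induction m with
    | zero =>
      intro j hj hN' z hz
      refine slot j hj z ?_
      rw [dif_neg (by omega)]
      have e1 : z + tg e' g x0 J R j = ∑ v, (J (val g x0 (fun b => (J b).1) (R + 1) v)).2 := by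
        rw [← sum_tg e', hz]
        have hr : Finset.range N = Finset.range (j + 1) := congrArg Finset.range (by omega)
        rw [hr, Finset.sum_range_succ]
      rw [e1]
      exact good_out rfl
    | succ m ih =>
      intro j hj hN' z hz
      refine slot j hj z ?_
      rw [dif_pos (by omega)]
      refine ih (j + 1) _ (by omega) _ ?_
      rw [Finset.sum_range_succ, hz]
  exact key (N - 1) 0 hN (by omega) 0 (by simp)

end program

/-- The number of states. -/
theorem card_St (S B G : Type) [Finite S] [Finite B] [Finite G] :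
    Nat.card (S ⊕ B ⊕ (S × B) ⊕ G) = Nat.card S + (Nat.card B + (Nat.card S * Nat.card B + Nat.card G)) := by
  rw [Nat.card_sum, Nat.card_sum, Nat.card_sum, Nat.card_prod]

/-! ## P11a -/

variable {n d m : ℕ} {B G : Type} [AddCommGroup B] [AddCommGroup G] [NeZero m]

/-- P11a: the pushdown program, with the sharper bound for the stack symbols. -/
theorem pushdown_program1 [Fintype B] [Fintype G] (g : Fin d → Equiv.Perm (Fin n)) (x0 : Fin n × Fin m → B) (R : ℕ)
    (hd : 1 ≤ d) (hn : 1 ≤ n) :
    ∃ (Q Γ : Type) (_ : Finite Q) (_ : Finite Γ) (P : PProg B ((Fin d × Fin m → B) × G) G Q Γ),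
      Nat.card Q ≤ 4 * ((R + 2) * (n * m) * (d * m)) * (Fintype.card B ^ 2 * Fintype.card G) ∧
      Nat.card Γ ≤ (R + 2) * (n * m) * (d * m) * (Fintype.card B * Fintype.card G) ∧
      ∀ J, P.Outputs J (Pool.Agent.Helper96.PH.out g x0 R J) ∧
        Nat.card {b // P.Asks J b} ≤ (R + 2) * (n * m) := by
  have hm : 1 ≤ m := Nat.one_le_iff_ne_zero.2 (NeZero.ne m)
  have hU : Fintype.card (Fin n × Fin m) = n * m := by
    rw [Fintype.card_prod, Fintype.card_fin, Fintype.card_fin]
  have hD : Fintype.card (Fin d × Fin m) = d * m := by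
    rw [Fintype.card_prod, Fintype.card_fin, Fintype.card_fin]
  have hd' : 0 < Fintype.card (Fin d × Fin m) := by rw [hD]; exact Nat.mul_pos hd hm
  have hN' : 0 < Fintype.card (Fin n × Fin m) := by rw [hU]; exact Nat.mul_pos hn hm
  have hB : 1 ≤ Fintype.card B := Fintype.card_pos
  have hG : 1 ≤ Fintype.card G := Fintype.card_pos
  have hΓ : Fintype.card (Sy R (Fintype.card (Fin n × Fin m)) (Fintype.card (Fin d × Fin m)) (Fin n × Fin m) B G) ≤
      (R + 2) * (n * m) * (d * m) * (Fintype.card B * Fintype.card G) := by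
    have e1 : Fintype.card (Sy R (Fintype.card (Fin n × Fin m)) (Fintype.card (Fin d × Fin m))
        (Fin n × Fin m) B G) = (R + 1) * ((n * m) * (d * m)) * Fintype.card B + (n * m) * Fintype.card G := by
      simp only [Fintype.card_sum, Fintype.card_prod, Fintype.card_fin]
    rw [e1]
    rw [hD] at hd'
    generalize n * m = N
    generalize d * m = D at hd' ⊢
    generalize Fintype.card B = k at hB
    generalize Fintype.card G = q at hG
    have h1 : (R + 1) * (N * D) * k ≤ (R + 1) * (N * D) * k * q := Nat.le_mul_of_pos_right _ hG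
    have h2 : N * q ≤ N * D * (k * q) := by
      calc N * q = N * 1 * (1 * q) := by ring
        _ ≤ N * D * (k * q) := Nat.mul_le_mul (Nat.mul_le_mul_left _ hd') (Nat.mul_le_mul_right _ hB)
    calc (R + 1) * (N * D) * k + N * q ≤ (R + 1) * (N * D) * k * q + N * D * (k * q) := Nat.add_le_add h1 h2
      _ = (R + 2) * N * D * (k * q) := by ring
  refine ⟨_, _, inferInstance, inferInstance, prog (R := R) (Fintype.equivFin (Fin d × Fin m)).symm
    (Fintype.equivFin (Fin n × Fin m)).symm hd' hN' (fine g) x0, ?_, ?_, fun J => ?_⟩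
  · rw [card_St]
    rw [← Nat.card_eq_fintype_card] at hΓ
    rw [Nat.card_eq_fintype_card (α := B), Nat.card_eq_fintype_card (α := G)]
    generalize Nat.card (Sy R (Fintype.card (Fin n × Fin m)) (Fintype.card (Fin d × Fin m)) (Fin n × Fin m) B G) = s
      at hΓ ⊢
    rw [hD] at hd'
    rw [hU] at hN'
    generalize n * m = N at *
    generalize d * m = D at *
    generalize Fintype.card B = k at *
    generalize Fintype.card G = q at *
    have hX : 1 ≤ (R + 2) * N * D := Nat.mul_pos (Nat.mul_pos (by omega) hN') hd'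
    generalize (R + 2) * N * D = X at *
    have hk2 : k ≤ k ^ 2 := Nat.le_self_pow (by norm_num) k
    have h1 : s ≤ X * (k ^ 2 * q) := hΓ.trans (Nat.mul_le_mul_left _ (Nat.mul_le_mul_right _ hk2))
    have h2 : k ≤ X * (k ^ 2 * q) := by
      calc k = 1 * (k * 1) := by ring
        _ ≤ X * (k ^ 2 * q) := Nat.mul_le_mul hX (Nat.mul_le_mul hk2 hG)
    have h3 : s * k ≤ X * (k ^ 2 * q) := by
      calc s * k ≤ X * (k * q) * k := Nat.mul_le_mul_right _ hΓ
        _ = X * (k ^ 2 * q) := by ring
    have h4 : q ≤ X * (k ^ 2 * q) := by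
      calc q = 1 * (1 * q) := by ring
        _ ≤ X * (k ^ 2 * q) := Nat.mul_le_mul hX (Nat.mul_le_mul_right _ (hB.trans hk2))
    calc s + (k + (s * k + q)) ≤ X * (k ^ 2 * q) + (X * (k ^ 2 * q) + (X * (k ^ 2 * q) + X * (k ^ 2 * q))) := by
          omega
      _ = 4 * X * (k ^ 2 * q) := by ring
  · rw [Nat.card_eq_fintype_card]
    exact hΓ
  · set Y : Set B := Set.range (fun x : Fin (R + 2) × (Fin n × Fin m) =>
      val (fine g) x0 (fun b => (J b).1) x.1 x.2) with hYdef
    have hY : ∀ i < R + 2, ∀ w, val (fine g) x0 (fun b => (J b).1) i w ∈ Y :=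
      fun i hi w => ⟨(⟨i, hi⟩, w), rfl⟩
    have h := run_all (R := R) (Fintype.equivFin (Fin d × Fin m)).symm (Fintype.equivFin (Fin n × Fin m)).symm
      hd' hN' (fine g) x0 J hY
    refine ⟨h.1, ?_⟩
    have hsub : {b | (prog (R := R) (Fintype.equivFin (Fin d × Fin m)).symm
        (Fintype.equivFin (Fin n × Fin m)).symm hd' hN' (fine g) x0).Asks J b} ⊆ Y := by
      rintro b ⟨j, nx, hb⟩
      exact h.2 j b nx hb
    calc _ ≤ Nat.card Y := Nat.card_mono (Set.toFinite _) hsub
      _ ≤ Nat.card (Fin (R + 2) × (Fin n × Fin m)) := Nat.card_le_card_of_surjective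
          (Set.rangeFactorization _) Set.rangeFactorization_surjective
      _ = (R + 2) * (n * m) := by
          rw [Nat.card_eq_fintype_card, Fintype.card_prod, Fintype.card_fin, hU]

/-- P11a: the pushdown program. -/
theorem pushdown_program [Fintype B] [Fintype G] (g : Fin d → Equiv.Perm (Fin n)) (x0 : Fin n × Fin m → B) (R : ℕ)
    (hd : 1 ≤ d) (hn : 1 ≤ n) :
    ∃ (Q Γ : Type) (_ : Finite Q) (_ : Finite Γ) (P : PProg B ((Fin d × Fin m → B) × G) G Q Γ),
      Nat.card Q ≤ 4 * ((R + 2) * (n * m) * (d * m)) * (Fintype.card B ^ 2 * Fintype.card G) ∧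
      Nat.card Γ ≤ 4 * ((R + 2) * (n * m) * (d * m)) * (Fintype.card B * Fintype.card G) ∧
      ∀ J, P.Outputs J (Pool.Agent.Helper96.PH.out g x0 R J) ∧
        Nat.card {b // P.Asks J b} ≤ (R + 2) * (n * m) := by
  obtain ⟨Q, Γ, h1, h2, P, h3, h4, h5⟩ := pushdown_program1 g x0 R hd hn (G := G)
  exact ⟨Q, Γ, h1, h2, P, h3, h4.trans (Nat.mul_le_mul_right _ (by omega)), h5⟩

end Pool.Agent.Helper60.PH
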